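import Pool.Agent.Y557.WK.Bridge

/-!
# The weak abc inequality for almost all numbers of a number field, of all heights

`K` is a number field of degree `d`. The numbers `x ∈ K`, `x ≠ 0, 1`, are ordered by the quantity
`c(x) = cond(x) + cond(1/x) + cond(x - 1)` of the problem; there is no restriction on their
heights. For every `κ > 1/3` and every real `c` all but a power-saving proportion of them satisfy
`h(x) < κ c(x) - c`; for `κ ≤ 1/3` and `c ≥ log 2` none does.
-/

set_option autoImplicit false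

namespace Pool.Agent.Results.MP_f5a5f7_nt.AlmostAllNumbers

open NumberField IsDedekindDomain

variable {K : Type} [Field K] [NumberField K]

/-- the absolute logarithmic Weil height `h(x)`, as in the problem -/
noncomputable def height (x : K) : ℝ :=
  (1 / (Module.finrank ℚ K : ℝ)) *
    ((∑ w : InfinitePlace K, (w.mult : ℝ) * Real.log (max 1 (w x))) +
      ∑ᶠ v : HeightOneSpectrum (𝓞 K), Real.log (max 1 (FinitePlace.mk v x)))

/-- the conductor `cond(x)`, as in the problem: the sum of `log N(v) / d` over the primes `v` at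
which `x` has a positive valuation -/
noncomputable def cond (x : K) : ℝ :=
  (1 / (Module.finrank ℚ K : ℝ)) *
    (∑ᶠ v : HeightOneSpectrum (𝓞 K),
      (if FinitePlace.mk v x < 1 then Real.log (Ideal.absNorm v.asIdeal : ℝ) else 0))

/-- the numbers `x ∈ K`, `x ≠ 0, 1`, with `cond(x) + cond(1/x) + cond(x - 1) ≤ log X`; there is no
condition on the height of `x` -/
def Numbers (K : Type) [Field K] [NumberField K] (X : ℝ) : Set K :=
  {x | x ≠ 0 ∧ x ≠ 1 ∧ Real.exp (cond x + cond x⁻¹ + cond (x - 1)) ≤ X}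

/-- those among them with `κ (cond(x) + cond(1/x) + cond(x - 1)) ≤ h(x) + c`: the numbers violating
`h(x) < κ (cond(x) + cond(1/x) + cond(x - 1)) - c`. For `c = -κ` this is the inequality of Q1,
`h(x) < κ (cond(x) + cond(1/x) + cond(x - 1) + 1)`. -/
def Exceptions (K : Type) [Field K] [NumberField K] (κ c X : ℝ) : Set K :=
  {x | x ≠ 0 ∧ x ≠ 1 ∧ Real.exp (cond x + cond x⁻¹ + cond (x - 1)) ≤ X ∧
    κ * (cond x + cond x⁻¹ + cond (x - 1)) ≤ height x + c}

/-- **The weak abc inequality holds for almost all numbers of any number field.** Let `K` be a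
number field of degree `d`.
(1) The number of all `x ∈ K`, `x ≠ 0, 1`, with `cond(x) + cond(1/x) + cond(x - 1) ≤ log X`, of
whatever height, is `X ^ (2 d / 3 + o(1))`.
(2) For every `κ > 1/3` and every real `c` at most `C X ^ (2 d / 3 - ν)` of them, a proportion
`≤ X ^ (-ν)` for large `X`, violate `h(x) < κ (cond(x) + cond(1/x) + cond(x - 1)) - c`.
(3) For `κ ≤ 1/3` and `c ≥ log 2` all of them do. -/
theorem result : ∀ (K : Type) [Field K] [NumberField K],
    (∀ δ : ℝ, 0 < δ →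
      (∃ C : ℝ, ∀ X : ℝ, 1 ≤ X → (Numbers K X).Finite ∧
        ((Numbers K X).ncard : ℝ) ≤ C * X ^ ((Module.finrank ℚ K : ℝ) * (2 / 3) + δ)) ∧
      ∃ X₀ : ℝ, ∀ X : ℝ, X₀ ≤ X →
        X ^ ((Module.finrank ℚ K : ℝ) * (2 / 3) - δ) ≤ ((Numbers K X).ncard : ℝ)) ∧
    (∀ κ c : ℝ, 1 / 3 < κ →
      (∃ ν C : ℝ, 0 < ν ∧ 0 < C ∧ ∀ X : ℝ, 1 ≤ X →
        ((Exceptions K κ c X).ncard : ℝ) ≤ C * X ^ ((Module.finrank ℚ K : ℝ) * (2 / 3) - ν)) ∧
      ∃ ν X₀ : ℝ, 0 < ν ∧ ∀ X : ℝ, X₀ ≤ X →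
        ((Exceptions K κ c X).ncard : ℝ) ≤ X ^ (-ν) * ((Numbers K X).ncard : ℝ)) ∧
    (∀ κ c : ℝ, κ ≤ 1 / 3 → Real.log 2 ≤ c → ∀ X : ℝ, Exceptions K κ c X = Numbers K X) := by
  intro K _ _
  refine ⟨fun δ hδ => ⟨Pool.Agent.Y557.WK.upper K δ hδ, Pool.Agent.Y557.WK.lower K δ hδ⟩,
    fun κ c hκ => ⟨?_, ?_⟩, fun κ c hκ hc X => ?_⟩
  · exact Pool.Agent.Y557.WK.exc_count K c hκ
  · exact Pool.Agent.Y557.WK.exc_ratio K c hκ
  · exact Pool.Agent.Y557.WK.exc_small K hκ hc X

end Pool.Agent.Results.MP_f5a5f7_nt.AlmostAllNumbers
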