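import Pool.Agent.Y913.Wm.Pr

/-!
For every `n` and `ε > 0` there are `κ` and `C` such that for every `X ≥ 1` at most
`C * X ^ ε` rational numbers `x ≠ 0, 1`, of any height, violate the weak abc inequality
`h (x) ≤ κ (cond (x) + cond (1/x) + cond (x - 1) + 1)`, have
`cond (x) + cond (1/x) + cond (x - 1) ≤ log X` and only at most `n` primes which occur in one of the
three conductors.
-/

set_option autoImplicit false

namespace Pool.Agent.Results.MP_f5a5f7_nt.RationalsRare

/-- the absolute logarithmic height of a rational number -/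
noncomputable def height (x : ℚ) : ℝ := Real.log ((max x.num.natAbs x.den : ℕ) : ℝ)

/-- the primes `p` with `|x|_p < 1` -/
def zeros (x : ℚ) : Finset ℕ := x.num.natAbs.primeFactors

/-- the conductor of a rational number: the sum of `log p` over the primes `p` with `|x|_p < 1` -/
noncomputable def cond (x : ℚ) : ℝ := ∑ p ∈ zeros x, Real.log p

/-- the rational numbers `x ≠ 0, 1` such that at most `n` primes occur in the conductors of `x`,
`1/x`, `x - 1`, the sum of these conductors is at most `log X` and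
`h (x) > κ (cond (x) + cond (1/x) + cond (x - 1) + 1)` -/
def violations (n : ℕ) (κ X : ℝ) : Set ℚ :=
  {x | x ≠ 0 ∧ x ≠ 1 ∧ (zeros x ∪ zeros x⁻¹ ∪ zeros (x - 1)).card ≤ n ∧
    cond x + cond x⁻¹ + cond (x - 1) ≤ Real.log X ∧
    κ * (cond x + cond x⁻¹ + cond (x - 1) + 1) < height x}

lemma zeros_inv {x : ℚ} (hx : x ≠ 0) : zeros x⁻¹ = x.den.primeFactors := by
  unfold zeros
  congr 1
  have h1 : x.num ≠ 0 := Rat.num_ne_zero.mpr hx
  rw [Rat.num_inv, Int.natAbs_mul, Int.natAbs_sign_of_ne_zero h1, one_mul, Int.natAbs_natCast]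

lemma num_sub (x : ℚ) : (x - 1).num = x.num - x.den := by
  have h1 : (x - 1).den = x.den := by
    have h0 := Rat.sub_natCast_den x 1
    rwa [Nat.cast_one] at h0
  have h2 := Rat.mul_den_eq_num (x - 1)
  rw [h1] at h2
  have h3 := Rat.mul_den_eq_num x
  have h4 : (((x - 1).num : ℤ) : ℚ) = ((x.num - x.den : ℤ) : ℚ) := by
    push_cast
    rw [← h2, ← h3]
    ring
  exact_mod_cast h4

/-- the radical in terms of the three conductors -/
lemma rad_eq {a b c : ℕ} (ha : 0 < a) (hb : 0 < b) (hc : 0 < c) (hab : Nat.Coprime a b)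
    (hac : Nat.Coprime a c) (hbc : Nat.Coprime b c) :
    (a * b * c).primeFactors = a.primeFactors ∪ b.primeFactors ∪ c.primeFactors ∧
    Real.log ((∏ p ∈ (a * b * c).primeFactors, p : ℕ) : ℝ) = (∑ p ∈ a.primeFactors, Real.log p) +
      (∑ p ∈ b.primeFactors, Real.log p) + ∑ p ∈ c.primeFactors, Real.log p := by
  have h1 : (a * b * c).primeFactors = a.primeFactors ∪ b.primeFactors ∪ c.primeFactors := by
    rw [Nat.primeFactors_mul (by positivity) (by omega), Nat.primeFactors_mul ha.ne' hb.ne']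
  refine ⟨h1, ?_⟩
  have h2 : Disjoint (a.primeFactors ∪ b.primeFactors) c.primeFactors := by
    rw [← Nat.primeFactors_mul ha.ne' hb.ne']
    exact (Nat.Coprime.mul_left hac hbc).disjoint_primeFactors
  rw [h1, Nat.cast_prod, Real.log_prod (fun p hp => by
    rw [← h1] at hp
    have := (Nat.prime_of_mem_primeFactors hp).pos
    positivity), Finset.sum_union h2, Finset.sum_union hab.disjoint_primeFactors]

open Pool.Agent.Y913.Sm in
lemma to_viol {n : ℕ} {K κ X : ℝ} (hX : 1 ≤ X) (hK : 0 < K) (hKκ : K ≤ κ) {x : ℚ}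
    (hx : x ∈ violations n κ X) {a b : ℕ} (ha : 0 < a) (hb : 0 < b) (hab : Nat.Coprime a b)
    (h1 : (a * b * (a + b)) = x.num.natAbs * x.den * (x - 1).num.natAbs)
    (h2 : max x.num.natAbs x.den ≤ a + b)
    (hc1 : Nat.Coprime x.num.natAbs x.den) (hc2 : Nat.Coprime x.num.natAbs (x - 1).num.natAbs)
    (hc3 : Nat.Coprime x.den (x - 1).num.natAbs) (hm : 0 < (x - 1).num.natAbs) :
    Viol n K X (a, b) := by
  obtain ⟨hx0, hx1, hcard, hcond, hviol⟩ := hx
  have hn : 0 < x.num.natAbs := Int.natAbs_pos.mpr (Rat.num_ne_zero.mpr hx0)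
  obtain ⟨e1, e2⟩ := rad_eq hn x.den_pos hm hc1 hc2 hc3
  have hprod : (∏ p ∈ (a * b * (a + b)).primeFactors, p) = radT (a, b) := rfl
  rw [← h1] at e1 e2
  have hz : zeros x ∪ zeros x⁻¹ ∪ zeros (x - 1) = (a * b * (a + b)).primeFactors := by
    rw [e1, zeros_inv hx0]
    rfl
  have hlog : cond x + cond x⁻¹ + cond (x - 1) = Real.log (radT (a, b) : ℝ) := by
    rw [← hprod, e2]
    unfold cond
    rw [zeros_inv hx0]
    rfl
  rw [hz] at hcard
  rw [hlog] at hcond hviol
  have hr2 : 2 ≤ radT (a, b) := radT_two_le ha hb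
  have hr : (2 : ℝ) ≤ radT (a, b) := by exact_mod_cast hr2
  have hrp : (0 : ℝ) < radT (a, b) := by linarith
  have hlr : 0 ≤ Real.log (radT (a, b) : ℝ) := Real.log_nonneg (by linarith)
  refine ⟨ha, hb, hab, hcard, ?_, ?_⟩
  · rwa [← Real.log_le_log_iff hrp (by linarith)]
  · have hcp : (0 : ℝ) < ((a + b : ℕ) : ℝ) := by exact_mod_cast (by omega : 0 < a + b)
    show (radT (a, b) : ℝ) ^ K ≤ ((a + b : ℕ) : ℝ)
    rw [← Real.log_le_log_iff (by positivity) hcp, Real.log_rpow hrp]
    have h3 : height x ≤ Real.log ((a + b : ℕ) : ℝ) := by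
      unfold height
      apply Real.log_le_log
      · exact_mod_cast lt_max_of_lt_left hn
      · exact_mod_cast h2
    have h4 : K * Real.log (radT (a, b) : ℝ) ≤ κ * (Real.log (radT (a, b) : ℝ) + 1) := by
      have h5 : 0 < κ := hK.trans_le hKκ
      nlinarith
    linarith

theorem result (n : ℕ) (ε : ℝ) (hε : 0 < ε) : ∃ κ C : ℝ, 1 < κ ∧ 0 < C ∧
    ∀ X : ℝ, 1 ≤ X → (violations n κ X).Finite ∧
      ((violations n κ X).ncard : ℝ) ≤ C * X ^ ε := by
  classical
  obtain ⟨K, C, hK, hC, h⟩ := Pool.Agent.Y913.Wm.viol_eps n ε hε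
  refine ⟨max K 2, 3 * C, lt_of_lt_of_le (by norm_num) (le_max_right _ _), by positivity, ?_⟩
  intro X hX
  obtain ⟨κ, hκ⟩ : ∃ κ : ℝ, κ = max K 2 := ⟨_, rfl⟩
  rw [← hκ]
  have hKκ : K ≤ κ := by rw [hκ]; exact le_max_left _ _
  obtain ⟨hfin, hcount⟩ := Pool.Agent.Y913.Sm.finite_of_bound
    (S := {q | Pool.Agent.Y913.Sm.Viol n K X q}) (N := C * X ^ ε)
    (fun Q hQ => h X hX Q hQ)
  let V : Set (ℕ × ℕ) := {q | Pool.Agent.Y913.Sm.Viol n K X q}
  let g1 : ℕ × ℕ → ℚ := fun q => -((q.1 : ℚ) / q.2)
  let g2 : ℕ × ℕ → ℚ := fun q => (q.1 : ℚ) / ((q.1 + q.2 : ℕ) : ℚ)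
  let g3 : ℕ × ℕ → ℚ := fun q => ((q.1 + q.2 : ℕ) : ℚ) / q.1
  have hsub : violations n κ X ⊆ g1 '' V ∪ g2 '' V ∪ g3 '' V := by
    intro x hx
    have hx' := hx
    obtain ⟨hx0, hx1, -, -, -⟩ := hx
    have hnum := num_sub x
    have hd : 0 < x.den := x.den_pos
    have hdi : (0 : ℤ) < x.den := by exact_mod_cast hd
    have hxe : x = (x.num : ℚ) / x.den := (Rat.num_div_den x).symm
    have hn0 : x.num ≠ 0 := Rat.num_ne_zero.mpr hx0
    have hne : x.num ≠ x.den := by
      intro he
      apply hx1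
      rw [hxe, he]
      field_simp
      norm_cast
    have hc1 : Nat.Coprime x.num.natAbs x.den := x.reduced
    have hc1i : IsCoprime x.num (x.den : ℤ) := by
      rw [Int.isCoprime_iff_gcd_eq_one]
      exact hc1
    have hc2i : IsCoprime x.num (x - 1).num := by
      rw [hnum]
      have h5 : IsCoprime x.num (-(x.den : ℤ) + x.num * 1) := hc1i.neg_right.add_mul_left_right 1
      have h6 : -(x.den : ℤ) + x.num * 1 = x.num - x.den := by ring
      rwa [h6] at h5
    have hc3i : IsCoprime (x.den : ℤ) (x - 1).num := by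
      rw [hnum]
      have h5 : IsCoprime (x.den : ℤ) (x.num + x.den * (-1)) := hc1i.symm.add_mul_left_right (-1)
      have h6 : x.num + (x.den : ℤ) * (-1) = x.num - x.den := by ring
      rwa [h6] at h5
    have hc2 : Nat.Coprime x.num.natAbs (x - 1).num.natAbs := by
      rw [Int.isCoprime_iff_gcd_eq_one] at hc2i
      exact hc2i
    have hc3 : Nat.Coprime x.den (x - 1).num.natAbs := by
      rw [Int.isCoprime_iff_gcd_eq_one] at hc3i
      exact hc3i
    have hm : 0 < (x - 1).num.natAbs := by
      rw [Int.natAbs_pos, hnum]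
      omega
    rcases lt_or_gt_of_ne hn0 with hneg | hpos
    · -- negative numbers
      left; left
      refine ⟨(x.num.natAbs, x.den), to_viol hX hK hKκ hx' (by omega) hd hc1 ?_ ?_ hc1 hc2 hc3 hm,
        ?_⟩
      · congr 1
        rw [hnum]
        omega
      · omega
      · show -((x.num.natAbs : ℚ) / x.den) = x
        have h7 : (x.num.natAbs : ℚ) = -(x.num : ℚ) := by
          have : ((x.num.natAbs : ℤ)) = -x.num := by omega
          rw [← Int.cast_natCast (R := ℚ), this, Int.cast_neg]
        rw [h7]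
        conv_rhs => rw [hxe]
        ring
    · rcases lt_or_gt_of_ne hne with hlt | hgt
      · left; right
        refine ⟨(x.num.natAbs, (x - 1).num.natAbs), to_viol hX hK hKκ hx' (by omega) hm hc2 ?_ ?_
          hc1 hc2 hc3 hm, ?_⟩
        · have h8 : x.num.natAbs + (x - 1).num.natAbs = x.den := by
            rw [hnum]
            omega
          rw [h8]
          ring
        · have h8 : x.num.natAbs + (x - 1).num.natAbs = x.den := by
            rw [hnum]
            omega
          rw [h8]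
          omega
        · show (x.num.natAbs : ℚ) / ((x.num.natAbs + (x - 1).num.natAbs : ℕ) : ℚ) = x
          have h8 : x.num.natAbs + (x - 1).num.natAbs = x.den := by
            rw [hnum]
            omega
          rw [h8]
          have h7 : (x.num.natAbs : ℚ) = (x.num : ℚ) := by
            have : ((x.num.natAbs : ℤ)) = x.num := by omega
            rw [← Int.cast_natCast (R := ℚ), this]
          rw [h7]
          exact hxe.symm
      · right
        refine ⟨(x.den, (x - 1).num.natAbs), to_viol hX hK hKκ hx' hd hm hc3 ?_ ?_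
          hc1 hc2 hc3 hm, ?_⟩
        · have h8 : x.den + (x - 1).num.natAbs = x.num.natAbs := by
            rw [hnum]
            omega
          rw [h8]
          ring
        · have h8 : x.den + (x - 1).num.natAbs = x.num.natAbs := by
            rw [hnum]
            omega
          rw [h8]
          omega
        · show ((x.den + (x - 1).num.natAbs : ℕ) : ℚ) / x.den = x
          have h8 : x.den + (x - 1).num.natAbs = x.num.natAbs := by
            rw [hnum]
            omega
          rw [h8]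
          have h7 : (x.num.natAbs : ℚ) = (x.num : ℚ) := by
            have : ((x.num.natAbs : ℤ)) = x.num := by omega
            rw [← Int.cast_natCast (R := ℚ), this]
          rw [h7]
          exact hxe.symm
  have hVf : V.Finite := hfin
  have hU : (g1 '' V ∪ g2 '' V ∪ g3 '' V).Finite :=
    ((hVf.image _).union (hVf.image _)).union (hVf.image _)
  refine ⟨hU.subset hsub, ?_⟩
  have h1 := Set.ncard_le_ncard hsub hU
  have h2 : (g1 '' V ∪ g2 '' V ∪ g3 '' V).ncard ≤ V.ncard + V.ncard + V.ncard :=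
    (Set.ncard_union_le _ _).trans (Nat.add_le_add ((Set.ncard_union_le _ _).trans
      (Nat.add_le_add (Set.ncard_image_le hVf) (Set.ncard_image_le hVf)))
      (Set.ncard_image_le hVf))
  have h3 : ((violations n κ X).ncard : ℝ) ≤ V.ncard + V.ncard + V.ncard := by
    exact_mod_cast h1.trans h2
  have h4 : (V.ncard : ℝ) ≤ C * X ^ ε := hcount
  linarith

end Pool.Agent.Results.MP_f5a5f7_nt.RationalsRare
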