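import Mathlib
import Pool.Agent.Y724.T4.ABK

set_option autoImplicit false

/-!
# The weak abc inequality, with every `κ > 1`, at the sparse numbers in all number fields of bounded
degree

Let `S` be a finite set of primes. Let `K` be a number field with a basis `ω` whose structure constants
are, together with the coordinates of all numbers involved, short sums of `S`-units with small
coefficients. For the `x ∈ K`, `x ≠ 0, 1`, we prove
`h(x) ≤ (1 + ε) (cond(x) + cond(1 / x) + cond(x - 1) + d(K)) + C`, where in the conductors even the primes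
over `S` may be left out, if the coordinates and a radical of `(x : 1 - x : - 1)` are sparse, with one
constant `C` for all `K` of degree at most `r`; and `h(x) ≤ (1 + ε) (N_S(ρ) + d_S(ω)) + C` for every sparse
multiple `ρ` of the radical.
-/

namespace Pool.Agent.Results.MP_f5a5f7_nt.SparseNumbers

open MvPolynomial NumberField

/-! ### Height, conductors, counting function, discriminants -/

section field
variable {K : Type} [Field K] [NumberField K]

/-- the absolute logarithmic Weil height of `x` -/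
noncomputable def h (x : K) : ℝ :=
  Height.logHeight₁ x / Module.finrank ℚ K

variable (K) in
/-- the finite places of `K` over the primes in `S` -/
def placesOver (S : Finset ℕ) : Set (FinitePlace K) :=
  {v | ∃ p ∈ S, v (p : K) < 1}

/-- The part `cond_S(x)` of the conductor of `x` prime to `S`: the sum of `log #(𝓞 / 𝔭)` over the primes
`𝔭` not over `S` with `|x| < 1`, divided by the degree. For `S = ∅` it is `cond(x)`. -/
noncomputable def cond (S : Finset ℕ) (x : K) : ℝ :=
  (∑ᶠ v ∈ {v : FinitePlace K | v ∉ placesOver K S ∧ v x < 1},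
    Real.log ((Ideal.absNorm v.maximalIdeal.asIdeal : ℕ) : ℝ)) / Module.finrank ℚ K

/-- The counting function `N_S(ρ)` of the zeros of the `S`-integral number `ρ` outside `S`: minus the
sum of `log |ρ|_v` over the finite places not over `S`, divided by the degree (the logarithm of the
norm of the part of `ρ` prime to `S`, divided by the degree). -/
noncomputable def counting (S : Finset ℕ) (ρ : K) : ℝ :=
  (-∑ᶠ v ∈ (placesOver K S)ᶜ, Real.log (v ρ)) / Module.finrank ℚ K

variable (K) in
/-- the logarithmic discriminant `d(K)` -/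
noncomputable def logDisc : ℝ :=
  Real.log |((NumberField.discr K : ℤ) : ℝ)| / Module.finrank ℚ K

/-- The logarithmic discriminant of the basis `ω`, without the primes in `S`: `1 / [K : ℚ]` times the
logarithm of the part prime to `S` of the discriminant of `ω`. -/
noncomputable def logDiscBasis {n : ℕ} (S : Finset ℕ) (ω : Module.Basis (Fin n) ℚ K) : ℝ :=
  (Real.log |((Algebra.discr ℚ ω : ℚ) : ℝ)| +
    ∑ p ∈ S, Real.log ((padicNorm p (Algebra.discr ℚ ω) : ℚ) : ℝ)) / Module.finrank ℚ K

/-- `ρ` is a radical of the point `(x : 1 - x : - 1)` outside `S`: at the places not over `S` it has at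
most simple zeros (Mathlib's `v ρ` is `#(𝓞 / 𝔭) ^ (- ord ρ)`), and only where `|x| ≠ 1` or
`|1 - x| ≠ 1`. -/
def IsRadical (S : Finset ℕ) (x ρ : K) : Prop :=
  ∀ v : FinitePlace K, v ∉ placesOver K S → v ρ < 1 →
    ((Ideal.absNorm v.maximalIdeal.asIdeal : ℕ) : ℝ)⁻¹ ≤ v ρ ∧ (v x ≠ 1 ∨ v (1 - x) ≠ 1)

/-- The parameters of the elements `y k` of the number field with the basis `ω`: the structure
constants of `ω` (the coordinates of the products `ω i * ω j`) and the coordinates of the `y k` in the
basis. -/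
noncomputable def params {n : ℕ} {κ : Type} (ω : Module.Basis (Fin n) ℚ K) (y : κ → K) :
    (Fin n × Fin n × Fin n) ⊕ (κ × Fin n) → ℚ :=
  Sum.elim (fun t => ω.repr (ω t.1 * ω t.2.1) t.2.2) (fun t => ω.repr (y t.1) t.2)

/-- the numbers `a i`, `t i j` and `ρ` -/
def data (a : Fin 3 → K) (t : Fin 3 → Fin 3 → K) (ρ : K) : Fin 3 ⊕ (Fin 3 × Fin 3) ⊕ Unit → K :=
  Sum.elim a (Sum.elim (fun k => t k.1 k.2) (fun _ => ρ))

/-- All algebraic integers of `K` are combinations of the `ω i` with `S`-integral coefficients. If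
the structure constants of `ω` are `S`-integral as well, then `ω` is a basis over `ℤ_S` of the ring
of `S`-integers of `K`. -/
def SpansIntegers {n : ℕ} (S : Finset ℕ) (ω : Module.Basis (Fin n) ℚ K) : Prop :=
  ∀ (y : 𝓞 K) (i : Fin n) (p : ℕ), p.Prime → p ∣ (ω.repr (y : K) i).den → p ∈ S

end field

/-! ### Short sums of `S`-units -/

/-- `u` is an `S`-unit: plus or minus a product of powers (with integer exponents) of the primes in
`S` -/
def IsSUnit (S : Finset ℕ) (u : ℚ) : Prop :=
  ∃ (σ : ℤ) (e : ℕ → ℤ), (σ = 1 ∨ σ = -1) ∧ u = σ * ∏ p ∈ S, (p : ℚ) ^ e p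

/-- the maximum of the absolute values of the numerators and denominators of the `z i` -/
def size {ι : Type} [Fintype ι] (z : ι → ℚ) : ℕ :=
  Finset.univ.sup (fun i => max (z i).num.natAbs (z i).den)

/-- The rational vector `z` is a sum of `l` integer vectors with entries of absolute value at most
`B * H ^ δ`, `H` the size of `z`, multiplied by `S`-units. -/
def IsShortSum {ι : Type} [Fintype ι] (S : Finset ℕ) (l : ℕ) (B δ : ℝ) (z : ι → ℚ) : Prop :=
  ∃ (u : Fin l → ℚ) (m : Fin l → ι → ℤ), (∀ j, IsSUnit S (u j)) ∧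
    (∀ j i, |(m j i : ℝ)| ≤ B * (size z : ℝ) ^ δ) ∧ ∀ i, z i = ∑ j, u j * m j i

/-- homogeneous coordinates of the point `(x : 1 - x : - 1)` -/
def coords {K : Type} [Field K] (s x : K) : Fin 3 → K := ![s * x, s * (1 - x), -s]

/-- The number `x`, the coordinates `a = (s x, s (1 - x), - s)`, `s ≠ 0`, of the point
`(x : 1 - x : - 1)`, the number `ρ ≠ 0` and the cofactors `t i j` with `ρ ^ m * a j = a i * t i j` are
sparse with respect to the basis `ω`: the structure constants of `ω` and the coordinates of the `a i`,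
`t i j` and `ρ` with respect to `ω` together form a sum of `l` integer vectors with entries of absolute
value at most `B H ^ δ` multiplied by `S`-units, `H` their size, and `log H ≤ A (h(x) + 1)`. (The `t i j`
are then `S`-integral, so that `ρ` vanishes at all places not over `S` with `|x| ≠ 1` or
`|1 - x| ≠ 1`.) -/
def IsSparse {K : Type} [Field K] [NumberField K] {n : ℕ} (S : Finset ℕ) (l m : ℕ)
    (A B δ : ℝ) (ω : Module.Basis (Fin n) ℚ K) (x s : K) (t : Fin 3 → Fin 3 → K) (ρ : K) :
    Prop :=
  s ≠ 0 ∧ ρ ≠ 0 ∧ (∀ i j, ρ ^ m * coords s x j = coords s x i * t i j) ∧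
    IsShortSum S l B δ (params ω (data (coords s x) t ρ)) ∧
    Real.log (size (params ω (data (coords s x) t ρ))) ≤ A * (h x + 1)

/-- **Main theorem.** For all finite sets `S` of primes, all natural numbers `r`, `l`, `m` and all real
numbers `A`, `B` and `ε > 0` there are `δ > 0` and a constant `C` such that for all number fields `K` of
degree `n ≤ r`, all bases `ω` of `K` and all sparse `x ∈ K`, `x ≠ 0, 1` (with `s`, `t` and `ρ`):
* `h(x) ≤ (1 + ε) (N_S(ρ) + d_S(ω)) + C`;
* if `ω` is a basis of the `S`-integers of `K` and `ρ` is a radical of `(x : 1 - x : - 1)` outside `S`, then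
  `h(x) ≤ (1 + ε) (cond_S(x) + cond_S(1 / x) + cond_S(x - 1) + d(K)) + C`. -/
theorem result (S : Finset ℕ) (hS : ∀ p ∈ S, p.Prime) (r l m : ℕ) (A B ε : ℝ) (hε : 0 < ε) :
    ∃ (δ C : ℝ), 0 < δ ∧ ∀ (n : ℕ), n ≤ r → ∀ (K : Type) [Field K] [NumberField K]
      (ω : Module.Basis (Fin n) ℚ K) (x s : K) (t : Fin 3 → Fin 3 → K) (ρ : K),
      x ≠ 0 → x ≠ 1 → IsSparse S l m A B δ ω x s t ρ →
      h x ≤ (1 + ε) * (counting S ρ + logDiscBasis S ω) + C ∧
      (SpansIntegers S ω → IsRadical S x ρ →
        h x ≤ (1 + ε) * (cond S x + cond S x⁻¹ + cond S (x - 1) + logDisc K) + C) := by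
  classical
  obtain ⟨δ, C, hδ, _, hmain⟩ := Pool.Agent.Y724.T4.abk_core S hS r l m |A| B ε hε
  refine ⟨δ, C, hδ, ?_⟩
  intro n hn K _ _ ω x s t ρ hx0 hx1 ⟨hs, hρ0, ht, hshort, hlog⟩
  have hn0 : 0 < Module.finrank ℚ K := Module.finrank_pos
  have hnR : (0 : ℝ) < Module.finrank ℚ K := by exact_mod_cast hn0
  set a : Fin 3 → K := coords s x with ha
  have hx1' : 1 - x ≠ 0 := sub_ne_zero.2 (Ne.symm hx1)
  have a0 : a 0 = s * x := rfl
  have a1 : a 1 = s * (1 - x) := rfl
  have a2 : a 2 = -s := rfl
  have hane : ∀ i, a i ≠ 0 := by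
    intro i
    fin_cases i
    · exact mul_ne_zero hs hx0
    · exact mul_ne_zero hs hx1'
    · exact neg_ne_zero.2 hs
  have hav : a ≠ 0 := fun h => hane 0 (by rw [h]; rfl)
  have hsum : a 0 + a 1 + a 2 = 0 := by
    rw [a0, a1, a2]
    ring
  -- the height
  have hh : h x ≤ Pool.Agent.Y724.T4.R7.height a := by
    unfold h Pool.Agent.Y724.T4.R7.height
    refine div_le_div_of_nonneg_right ?_ hnR.le
    have e1 : Height.logHeight₁ x = Height.logHeight ![x, 1] := by
      have := Height.logHeight₁_div_eq_logHeight x 1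
      rwa [div_one] at this
    have e2 : Height.logHeight ![x, 1] = Height.logHeight (s • ![x, 1]) :=
      (Height.logHeight_smul_eq_logHeight _ hs).symm
    set y : Fin 2 → K := s • ![x, 1] with hy
    have y0 : y 0 = a 0 := rfl
    have y1 : y 1 = -a 2 := by
      rw [a2, neg_neg]
      change s * 1 = s
      rw [mul_one]
    have hyv : y ≠ 0 := fun h => hane 0 (by rw [← y0, h]; rfl)
    rw [e1, e2, Pool.Agent.Y724.T4.logHeight_sum hyv, Pool.Agent.Y724.T4.logHeight_sum hav]
    have hle : ∀ v : AbsoluteValue K ℝ, (⨆ i, v (y i)) ≤ ⨆ i, v (a i) := by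
      intro v
      have hle0 : ∀ j, v (a j) ≤ ⨆ j, v (a j) :=
        fun j => le_ciSup (f := fun j => v (a j)) (Finite.bddAbove_range _) j
      refine ciSup_le fun i => ?_
      fin_cases i
      · exact hle0 0
      · change v (y 1) ≤ _
        rw [y1, v.map_neg]
        exact hle0 2
    refine add_le_add ?_ ?_
    · refine Finset.sum_le_sum fun v _ => mul_le_mul_of_nonneg_left ?_ (Nat.cast_nonneg _)
      exact Real.log_le_log (Pool.Agent.Y724.T4.sup_pos hyv v.1) (hle v.1)
    · refine finsum_le_finsum' ?_ ?_ fun v => ?_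
      · refine (Pool.Agent.Y724.T4.sup_fin hyv).subset fun v hv h => hv ?_
        change Real.log (⨆ i, v (y i)) = 0
        rw [h, Real.log_one]
      · refine (Pool.Agent.Y724.T4.sup_fin hav).subset fun v hv h => hv ?_
        change Real.log (⨆ i, v (a i)) = 0
        rw [h, Real.log_one]
      · exact Real.log_le_log (Pool.Agent.Y724.T4.sup_pos hyv v.1) (hle v.1)
  have hh0 : 0 ≤ h x := div_nonneg (Height.zero_le_logHeight₁ _) hnR.le
  obtain ⟨h1, h2⟩ := hmain n hn K ω a t ρ hane hsum hρ0 ht hshort (by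
    refine hlog.trans ?_
    calc A * (h x + 1) ≤ |A| * (h x + 1) :=
          mul_le_mul_of_nonneg_right (le_abs_self A) (by linarith)
      _ ≤ |A| * (Pool.Agent.Y724.T4.R7.height a + 1) :=
          mul_le_mul_of_nonneg_left (by linarith) (abs_nonneg A))
  refine ⟨hh.trans h1, fun hspan hrad => ?_⟩
  have hval : ∀ v : FinitePlace K, v (a 0) = v s * v x ∧ v (a 1) = v s * v (1 - x) ∧
      v (a 2) = v s := by
    intro v
    refine ⟨?_, ?_, ?_⟩
    · rw [a0, map_mul]
    · rw [a1, map_mul]
    · rw [a2]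
      exact v.1.map_neg _
  have h3 := h2 hspan fun v hv hv1 => ⟨(hrad v hv hv1).1,
    (Pool.Agent.Y724.T4.line_meets a hane v).2 (by
      have hs0 : v s ≠ 0 := (v.1.pos hs).ne'
      rcases (hrad v hv hv1).2 with h | h
      · refine ⟨0, 2, fun h4 => h ?_⟩
        have h4' : v (a 0) = v (a 2) := h4
        rw [(hval v).1, (hval v).2.2] at h4'
        exact mul_left_cancel₀ hs0 (by rw [h4', mul_one])
      · refine ⟨1, 2, fun h4 => h ?_⟩
        have h4' : v (a 1) = v (a 2) := h4
        rw [(hval v).2.1, (hval v).2.2] at h4'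
        exact mul_left_cancel₀ hs0 (by rw [h4', mul_one]))⟩
  have h4 : Pool.Agent.Y724.T4.R7.truncated Pool.Agent.Y724.T4.lineF (fun _ _ => 1) S a ≤
      cond S x + cond S x⁻¹ + cond S (x - 1) := by
    unfold Pool.Agent.Y724.T4.R7.truncated cond
    rw [← add_div, ← add_div]
    refine div_le_div_of_nonneg_right ?_ hnR.le
    have f1 : {v : FinitePlace K | v ∉ placesOver K S ∧ v x < 1}.Finite :=
      (Pool.Agent.Y724.T4.fin_ne_one hx0).subset fun v hv => hv.2.ne
    have f2 : {v : FinitePlace K | v ∉ placesOver K S ∧ v x⁻¹ < 1}.Finite :=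
      (Pool.Agent.Y724.T4.fin_ne_one (inv_ne_zero hx0)).subset fun v hv => hv.2.ne
    have f3 : {v : FinitePlace K | v ∉ placesOver K S ∧ v (x - 1) < 1}.Finite :=
      (Pool.Agent.Y724.T4.fin_ne_one (sub_ne_zero.2 hx1)).subset fun v hv => hv.2.ne
    have hsub : {v : FinitePlace K | v ∉ Pool.Agent.Y724.T4.R7.placesOver K S ∧
        ∃ i, 0 < Pool.Agent.Y724.T4.R7.localHeight (Pool.Agent.Y724.T4.lineF i) (fun _ => 1) a
          v.1} ⊆ ({v : FinitePlace K | v ∉ placesOver K S ∧ v x < 1} ∪
        {v : FinitePlace K | v ∉ placesOver K S ∧ v x⁻¹ < 1}) ∪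
        {v : FinitePlace K | v ∉ placesOver K S ∧ v (x - 1) < 1} := by
      rintro v ⟨hv, hv2⟩
      obtain ⟨i, j, hij⟩ := (Pool.Agent.Y724.T4.line_meets a hane v).1 hv2
      by_contra hcon
      simp only [Set.mem_union, Set.mem_ofPred_eq, not_or, not_and, not_lt] at hcon
      obtain ⟨⟨c1, c2⟩, c3⟩ := hcon
      have hx : 0 < v x := v.1.pos hx0
      have d1 : 1 ≤ v x := c1 hv
      have d2 : 1 ≤ v x⁻¹ := c2 hv
      have d3 : 1 ≤ v (x - 1) := c3 hv
      rw [map_inv₀] at d2
      have d4 : v x = 1 := le_antisymm ((one_le_inv₀ hx).1 d2) d1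
      have d5 : v (x - 1) ≤ 1 := by
        have := FinitePlace.add_le v x (-1)
        rw [← sub_eq_add_neg] at this
        refine this.trans (max_le d4.le ?_)
        have h5 : v (-1 : K) = v (1 : K) := v.1.map_neg _
        rw [h5, map_one]
      have d6 : v (1 - x) = 1 := by
        have h5 : v (1 - x) = v (x - 1) := v.1.map_sub _ _
        rw [h5]
        exact le_antisymm d5 d3
      have hall : ∀ i, v (a i) = v s := by
        intro i
        fin_cases i
        · change v (a 0) = _
          rw [(hval v).1, d4, mul_one]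
        · change v (a 1) = _
          rw [(hval v).2.1, d6, mul_one]
        · exact (hval v).2.2
      exact hij ((hall i).trans (hall j).symm)
    have f12 := f1.union f2
    have f123 := f12.union f3
    rw [finsum_mem_eq_finite_toFinset_sum _ (f123.subset hsub),
      finsum_mem_eq_finite_toFinset_sum _ f1, finsum_mem_eq_finite_toFinset_sum _ f2,
      finsum_mem_eq_finite_toFinset_sum _ f3]
    have hnn : ∀ v : FinitePlace K, 0 ≤
        Real.log ((Ideal.absNorm v.maximalIdeal.asIdeal : ℕ) : ℝ) := fun v =>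
      Real.log_natCast_nonneg _
    have hun : ∀ P Q : Finset (FinitePlace K), ∑ v ∈ P ∪ Q,
        Real.log ((Ideal.absNorm v.maximalIdeal.asIdeal : ℕ) : ℝ) ≤
        ∑ v ∈ P, Real.log ((Ideal.absNorm v.maximalIdeal.asIdeal : ℕ) : ℝ) +
        ∑ v ∈ Q, Real.log ((Ideal.absNorm v.maximalIdeal.asIdeal : ℕ) : ℝ) := by
      intro P Q
      have := Finset.sum_union_inter (s₁ := P) (s₂ := Q)
        (f := fun v : FinitePlace K =>
          Real.log ((Ideal.absNorm v.maximalIdeal.asIdeal : ℕ) : ℝ))
      have h5 := Finset.sum_nonneg (s := P ∩ Q) fun v _ => hnn v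
      linarith
    refine le_trans (Finset.sum_le_sum_of_subset_of_nonneg
      (t := (f1.toFinset ∪ f2.toFinset) ∪ f3.toFinset) ?_ fun v _ _ => hnn v) ?_
    · intro v hv
      rw [Set.Finite.mem_toFinset] at hv
      have h5 := hsub hv
      simp only [Finset.mem_union, Set.Finite.mem_toFinset]
      exact h5
    · have g1 := hun (f1.toFinset ∪ f2.toFinset) f3.toFinset
      have g2 := hun f1.toFinset f2.toFinset
      linarith
  have h5 : Pool.Agent.Y724.T4.R7.logDisc K = logDisc K := rfl
  rw [h5] at h3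
  have h6 := mul_le_mul_of_nonneg_left h4 (by linarith : (0 : ℝ) ≤ 1 + ε)
  linarith

end Pool.Agent.Results.MP_f5a5f7_nt.SparseNumbers
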